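import Mathlib
import Pool.Agent.Q43.EX.Fin
import Pool.Agent.W66.ST

set_option autoImplicit false

/-!
# Exceptional amplitudes in the Lenstra-Pomerance-Wagstaff model in base two

For real `β > 0` and a prime `p` let `W β p` be the `p`-rough part (the product, with multiplicity, of
the prime factors larger than `p`) of the largest integer below `β * 2 ^ p`; for `β = 1` this is the
Mersenne number `2 ^ p - 1`.  Let `M β n` be the number of primes `p ≤ n` for which `W β p` is prime.
For almost every `β` it is known that `M β n / log n` tends to `e ^ γ / log 2`.  We prove that the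
exceptional set is large in the sense of category and in the sense of dimension, and that on it the
number of primes can be as large as possible.  For every function `f` tending to infinity, the set of
the `β` for which `M β n / π (n)` has upper limit `1` and for every `ε > 0` one has `M β n < ε f n`
for infinitely many `n` is comeager.  For all `0 ≤ δ < 1` and in every interval, the set of the `β` for which the upper limit of
`M β n / π (n)` is at least `δ` has Hausdorff dimension at least `1 - δ`.
-/

namespace Pool.Agent.Results.MP_9b2bac_nt.ExceptionalAmplitudes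

open Filter Topology MeasureTheory

/-- The product, with multiplicity, of the prime factors of `m` that are larger than `p`. -/
def roughPart (p m : ℕ) : ℕ := (m.primeFactorsList.filter (fun r => p < r)).prod

/-- The `p`-rough part of the largest integer below `β * 2 ^ p`. -/
noncomputable def W (β : ℝ) (p : ℕ) : ℕ := roughPart p (⌈β * 2 ^ p⌉₊ - 1)

open Classical in
/-- The number of primes `p ≤ n` for which `W β p` is prime. -/
noncomputable def M (β : ℝ) (n : ℕ) : ℕ :=
  ((Finset.range (n + 1)).filter (fun p => p.Prime ∧ (W β p).Prime)).card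

lemma M_eq (β : ℝ) (n : ℕ) : M β n = Pool.Agent.Q43.EX.Mc (Pool.Agent.Q43.EX.uA 2 β) n := by
  classical
  unfold M Pool.Agent.Q43.EX.Mc
  congr 1

lemma W_one {p : ℕ} (hp : p.Prime) : W 1 p = 2 ^ p - 1 := by
  have h := Pool.Agent.W66S.repunit_special (b := 2) le_rfl hp (by
    intro h
    exact hp.one_lt.ne' (Nat.dvd_one.1 h))
  have e1 : ⌈(1 / (((2 : ℕ) : ℝ) - 1)) * ((2 : ℕ) : ℝ) ^ p⌉₊ = ⌈(1 : ℝ) * 2 ^ p⌉₊ := by
    congr 1
    push_cast
    norm_num
  rw [e1, Nat.geomSum_eq le_rfl] at h
  have h2 : W 1 p = Pool.Agent.H305R2.roughPart p (⌈(1 : ℝ) * 2 ^ p⌉₊ - 1) := rfl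
  rw [h2, h]
  norm_num

/-- The values at `β = 1` are the Mersenne numbers.  For every function `f` tending to infinity, for
comeagerly many amplitudes the number of exponents is infinitely often almost `π (n)` and infinitely
often less than every multiple of `f n`.  The set of the amplitudes in an interval for which the
exponents have upper density at least `δ` in the primes has dimension at least `1 - δ`. -/
theorem result :
    (∀ p : ℕ, p.Prime → W 1 p = 2 ^ p - 1) ∧
    (∀ f : ℕ → ℝ, Tendsto f atTop atTop →
      {β : ℝ | 0 < β → limsup (fun n : ℕ => (M β n : ℝ) / Nat.primeCounting n) atTop = 1 ∧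
        ∀ ε : ℝ, 0 < ε → ∃ᶠ n in atTop, (M β n : ℝ) < ε * f n} ∈ residual ℝ) ∧
    (∀ δ : ℝ, 0 ≤ δ → δ < 1 → ∀ s t : ℝ, 0 ≤ s → s < t →
      ENNReal.ofReal (1 - δ) ≤ dimH {β : ℝ | β ∈ Set.Ioo s t ∧
        δ ≤ limsup (fun n : ℕ => (M β n : ℝ) / Nat.primeCounting n) atTop}) := by
  simp only [M_eq]
  exact ⟨fun p hp => W_one hp, fun f hf => Pool.Agent.Q43.EX.generic_A le_rfl hf,
    fun δ h0 h1 s t hs hst => Pool.Agent.Q43.EX.dim_A le_rfl h0 h1 hs hst⟩

end Pool.Agent.Results.MP_9b2bac_nt.ExceptionalAmplitudes
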