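import Mathlib
import Pool.Agent.Q43.PR.Cons
import Pool.Agent.W66.ST

set_option autoImplicit false

/-!
# Repulsion of the exponents in the Lenstra-Pomerance-Wagstaff model in base two

For real `β > 0` and a prime `p` let `W β p` be the `p`-rough part (the product, with multiplicity, of
the prime factors larger than `p`) of the largest integer below `β * 2 ^ p`.  For `β = 1` this is the
Mersenne number `2 ^ p - 1` itself.  Give a pair of primes `p < q` the weight `(log p / p) (log q / q)`.
We prove that for every set `R` of pairs of primes with finite total weight and for almost every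
`β > 0` only finitely many pairs `(p, q)` in `R` are such that `W β p` and `W β q` are different primes.
(The values `W β p` and `W β q` can be the same prime, for instance if the binary digits of `β` behind
the place `p` are zeros up to the place `q`; this does not occur for `β = 1`.)  In particular for almost
every `β` and every `ε > 0` there are only finitely many pairs `p < q ≤ p + p / (log p) ^ (1 + ε)` with
this property, and for every function `φ`, such as `φ p = p + 2`, `φ p = 2 p + 1` or `φ p = 2 ^ p - 1`,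
only finitely many pairs `(p, φ p)`.
-/

namespace Pool.Agent.Results.MP_9b2bac_nt.RepulsionOfExponents

open Filter Topology MeasureTheory

/-- The product, with multiplicity, of the prime factors of `m` that are larger than `p`. -/
def roughPart (p m : ℕ) : ℕ := (m.primeFactorsList.filter (fun r => p < r)).prod

/-- The `p`-rough part of the largest integer below `β * 2 ^ p`. -/
noncomputable def W (β : ℝ) (p : ℕ) : ℕ := roughPart p (⌈β * 2 ^ p⌉₊ - 1)

lemma W_eq (β : ℝ) (p : ℕ) : W β p = Pool.Agent.Q43.PR.val 2 β p := by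
  unfold W Pool.Agent.Q43.PR.val
  push_cast
  rfl

lemma W_one {p : ℕ} (hp : p.Prime) : W 1 p = 2 ^ p - 1 := by
  have h := Pool.Agent.W66S.repunit_special (b := 2) le_rfl hp (by
    intro h
    exact hp.one_lt.ne' (Nat.dvd_one.1 h))
  have e1 : ⌈(1 / (((2 : ℕ) : ℝ) - 1)) * ((2 : ℕ) : ℝ) ^ p⌉₊ = ⌈(1 : ℝ) * 2 ^ p⌉₊ := by
    congr 1
    push_cast
    norm_num
  rw [e1, Nat.geomSum_eq le_rfl] at h
  have h2 : W 1 p = Pool.Agent.H305R2.roughPart p (⌈(1 : ℝ) * 2 ^ p⌉₊ - 1) := rfl
  rw [h2, h]
  norm_num

/-- The values at `β = 1` are the Mersenne numbers.  For almost every amplitude, with the base `2`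
fixed, only finitely many pairs of levels from a set of pairs of finite weight have different prime
values; in particular the different prime values repel each other, and only finitely many pairs
`(p, φ p)` have different prime values. -/
theorem result :
    (∀ p : ℕ, p.Prime → W 1 p = 2 ^ p - 1) ∧
    (∀ R : Set (ℕ × ℕ), (∀ x ∈ R, x.1.Prime ∧ x.2.Prime ∧ x.1 < x.2) →
      Summable (fun x : R => Real.log x.1.1 / x.1.1 * (Real.log x.1.2 / x.1.2)) →
      ∀ᵐ β : ℝ, 0 < β → {x ∈ R | (W β x.1).Prime ∧ (W β x.2).Prime ∧ W β x.1 ≠ W β x.2}.Finite) ∧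
    (∀ᵐ β : ℝ, 0 < β → ∀ ε : ℝ, 0 < ε → ∃ P : ℕ, ∀ p q : ℕ, P ≤ p → p < q → p.Prime → q.Prime →
      (W β p).Prime → (W β q).Prime → W β p ≠ W β q → (p : ℝ) + p / Real.log p ^ (1 + ε) < q) ∧
    (∀ φ : ℕ → ℕ, ∀ᵐ β : ℝ, 0 < β → {p : ℕ | p.Prime ∧ (φ p).Prime ∧ p < φ p ∧ (W β p).Prime ∧
      (W β (φ p)).Prime ∧ W β p ≠ W β (φ p)}.Finite) := by
  simp only [W_eq]
  refine ⟨fun p hp => ?_, fun R hR hs => ?_, Pool.Agent.Q43.PR.ae_gaps le_rfl, fun φ =>
    Pool.Agent.Q43.PR.ae_graph le_rfl φ⟩
  · rw [← W_eq]
    exact W_one hp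
  · exact Pool.Agent.Q43.PR.ae_pairs le_rfl R (fun x hx => ⟨(hR x hx).1.two_le, (hR x hx).2.2⟩) hs

end Pool.Agent.Results.MP_9b2bac_nt.RepulsionOfExponents
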