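import Mathlib
import Pool.Agent.Q43.BA.Low
import Pool.Agent.W66.LU

set_option autoImplicit false

/-!
# The Lenstra-Pomerance-Wagstaff law for almost every 2-adic unit: error term and sets of exponents

For a 2-adic integer `α` and a prime `p` let `W α p` be the `p`-rough part (the product, with
multiplicity, of the prime factors larger than `p`) of the residue of `α` modulo `2 ^ p` in
`[0, 2 ^ p)`, the integer formed by the last `p` binary digits of `α`.  For `α = -1` this is the
Mersenne number `2 ^ p - 1` itself.  For a set `S` let `M S α n` be the number of primes `p ≤ n` in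
`S` with `W α p` prime, and let `V S n` be the sum of `log p / p` over the primes `p ≤ n` in `S`.
We prove that for almost every 2-adic unit `α`, with respect to Haar measure, the number of primes
`p ≤ n` with `W α p` prime is `(e ^ γ / log 2) log n + O((log n) ^ (1/2) (log log n) ^ (5/2))`; that
for every set `S` and almost every unit `α` there are infinitely many such primes `p` in `S` if and
only if `V S n` is unbounded; and that in this case
`M S α n = (e ^ γ / log 2) V S n + O((V L) ^ (1/2) (log (V L)) ^ 2)` with `V = V S n` and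
`L = log log n`.
-/

namespace Pool.Agent.Results.MP_9b2bac_nt.TwoAdicSets

open Filter Topology MeasureTheory Asymptotics

/-- The product, with multiplicity, of the prime factors of `m` that are larger than `p`. -/
def roughPart (p m : ℕ) : ℕ := (m.primeFactorsList.filter (fun r => p < r)).prod

/-- The `p`-rough part of the residue of the 2-adic integer `α` modulo `2 ^ p`. -/
noncomputable def W (α : ℤ_[2]) (p : ℕ) : ℕ := roughPart p (PadicInt.toZModPow p α).val

open Classical in
/-- The number of primes `p ≤ n` in the set `S` for which `W α p` is prime. -/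
noncomputable def M (S : Set ℕ) (α : ℤ_[2]) (n : ℕ) : ℕ :=
  ((Finset.range (n + 1)).filter (fun p => p.Prime ∧ p ∈ S ∧ (W α p).Prime)).card

open Classical in
/-- The sum of `log p / p` over the primes `p ≤ n` in the set `S`. -/
noncomputable def V (S : Set ℕ) (n : ℕ) : ℝ :=
  ∑ p ∈ (Finset.range (n + 1)).filter (fun p => p.Prime ∧ p ∈ S), Real.log p / p

/-- The law with error term for all primes and for the primes in `S`, and the dichotomy. -/
structure Law (α : ℤ_[2]) (S : Set ℕ) : Prop where
  /-- the number of all primes `p ≤ n` with `W α p` prime -/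
  all : (fun n : ℕ => (M Set.univ α n : ℝ) -
      Real.exp Real.eulerMascheroniConstant / Real.log 2 * Real.log n) =O[atTop]
    (fun n : ℕ => Real.sqrt (Real.log n) * (Real.log (Real.log n)) ^ ((5 : ℝ) / 2))
  /-- the number of primes `p ≤ n` in `S` with `W α p` prime -/
  sets : Tendsto (V S) atTop atTop → (fun n : ℕ => (M S α n : ℝ) -
      Real.exp Real.eulerMascheroniConstant / Real.log 2 * V S n) =O[atTop]
    (fun n : ℕ => Real.sqrt (V S n * Real.log (Real.log n)) *
      (Real.log (V S n * Real.log (Real.log n))) ^ 2)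
  /-- there are infinitely many in `S` if and only if the weight of `S` is infinite -/
  dichotomy : {p : ℕ | p.Prime ∧ p ∈ S ∧ (W α p).Prime}.Infinite ↔ Tendsto (V S) atTop atTop

lemma V_eq (S : Set ℕ) : V S = Pool.Agent.TH888.R.VS S := by
  classical
  funext n
  unfold V Pool.Agent.TH888.R.VS
  rw [Finset.sum_filter]
  refine Finset.sum_congr rfl fun p _ => ?_
  by_cases h : p.Prime ∧ p ∈ S
  · rw [if_pos h, if_pos ⟨h.2, h.1⟩]
    rfl
  · rw [if_neg h, if_neg fun h1 => h ⟨h1.2, h1.1⟩]

lemma M_eq (α : ℤ_[2]) (S : Set ℕ) (n : ℕ) :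
    M S α n = Pool.Agent.TH888.R.cS S (fun p => Pool.Agent.W66L.res 2 p α) n := by
  classical
  unfold M Pool.Agent.TH888.R.cS
  rfl

/-- the law from the library statement -/
lemma law_of {α : ℤ_[2]} {S : Set ℕ}
    (h1 : Pool.Agent.TH888.R.Pt (fun p => Pool.Agent.W66L.res 2 p α)
      (Real.exp Real.eulerMascheroniConstant / Real.log 2) Set.univ)
    (h2 : Pool.Agent.TH888.R.Pt (fun p => Pool.Agent.W66L.res 2 p α)
      (Real.exp Real.eulerMascheroniConstant / Real.log 2) S) : Law α S := by
  refine ⟨?_, fun hS => ?_, ?_⟩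
  · obtain ⟨B, hB, h⟩ := h1.law Pool.Agent.TH888.R.VS_univ_tendsto
    simp only [M_eq]
    exact Pool.Agent.TH888.R.bigO_all hB h
  · rw [V_eq] at hS ⊢
    obtain ⟨B, hB, h⟩ := h2.law hS
    simp only [M_eq]
    exact Pool.Agent.TH888.R.bigO_set hB hS h
  · rw [V_eq]
    constructor
    · intro hi
      by_contra hn
      exact hi (h2.fin hn)
    · exact h2.inf

/-- The values at `α = -1` are the Mersenne numbers, and for every set `S` of exponents almost every
2-adic unit obeys the law with a square root error term and the dichotomy. -/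
theorem result :
    (∀ p : ℕ, p.Prime → W (-1) p = 2 ^ p - 1) ∧
    (∀ [MeasurableSpace ℤ_[2]] [BorelSpace ℤ_[2]] (μ : Measure ℤ_[2]) [μ.IsAddHaarMeasure]
      (S : Set ℕ), ∀ᵐ α : ℤ_[2] ∂μ, IsUnit α → Law α S) := by
  refine ⟨fun p hp => ?_, ?_⟩
  · have h1 : (PadicInt.toZModPow p (-1 : ℤ_[2])).val = 2 ^ p - 1 := by
      rw [map_neg, map_one]
      have h2 : 1 ≤ 2 ^ p := Nat.one_le_two_pow
      have h3 : (-1 : ZMod (2 ^ p)) = ((2 ^ p - 1 : ℕ) : ZMod (2 ^ p)) := by
        rw [Nat.cast_sub h2, ZMod.natCast_self, Nat.cast_one, zero_sub]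
      rw [h3, ZMod.val_natCast, Nat.mod_eq_of_lt (by omega)]
    have h2 : W (-1) p = Pool.Agent.H305R2.roughPart p (PadicInt.toZModPow p (-1 : ℤ_[2])).val := rfl
    rw [h2, h1, Pool.Agent.W66L.rough_mersenne hp]
  · intro _ _ μ _ S
    have h := fun S => Pool.Agent.Q43.BA.pt_full (μ := μ) le_rfl
      (Pool.Agent.W66L.full_padic 2 μ) S
    filter_upwards [h Set.univ, h S] with α h1 h2 hu
    have hc : (Pool.Agent.W66L.res 2 1 α).Coprime 2 := by
      unfold Pool.Agent.W66L.res
      have h1 : IsUnit (PadicInt.toZModPow 1 α) := hu.map _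
      have h2 := ZMod.isUnit_iff_coprime (PadicInt.toZModPow 1 α).val (2 ^ 1)
      rw [ZMod.natCast_zmod_val] at h2
      simpa using h2.1 h1
    have h3 := h1 hc
    have h4 := h2 hc
    simp only [Nat.cast_ofNat] at h3 h4
    exact law_of h3 h4

end Pool.Agent.Results.MP_9b2bac_nt.TwoAdicSets
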