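import Mathlib
import Pool.Agent.Q43.UN.Fin
import Pool.Agent.W66.ST

set_option autoImplicit false

/-!
# The Lenstra-Pomerance-Wagstaff law in all residue classes, uniformly in the modulus

For a sequence `s` of positive integers and a prime `p` let `W s p` be the `p`-rough part (the
product, with multiplicity, of the prime factors larger than `p`) of `s p`, and let `M s q a n` be the
number of primes `p ≤ n` with `p ≡ a (mod q)` and `W s p` prime.  We consider the sequence of the
largest integers below `β * 2 ^ p` (base two, real amplitude `β > 0`) and the sequence of the integer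
parts of `x ^ p - 1` (real base `x > 1`).  For `β = 1` and for `x = 2` these are the Mersenne numbers
`2 ^ p - 1`, and `W s p = 2 ^ p - 1`.  We prove for almost every `β > 0`, with `c = e ^ γ / log 2`, and
for almost every `x > 1`, with `c = e ^ γ / log x`: for every `ε > 0`, for ALL moduli `q`, all
classes `a` prime to `q` and all `n` simultaneously,
`M s q a n = c log n / φ (q) + O (q ^ (1/2 + ε) (log n) ^ (1/2 + ε))`, with one constant.  The main term
dominates for `q ≤ (log n) ^ (1/3 - δ)`.  In particular, for all large `q` every class prime to `q`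
contains a prime `p ≤ exp (q ^ (3 + ε))` with `W s p` prime.
-/

namespace Pool.Agent.Results.MP_9b2bac_nt.UniformProgressions

open Filter Topology MeasureTheory

/-- The product, with multiplicity, of the prime factors of `m` that are larger than `p`. -/
def roughPart (p m : ℕ) : ℕ := (m.primeFactorsList.filter (fun r => p < r)).prod

/-- The `p`-rough part of the term with the index `p`. -/
def W (s : ℕ → ℕ) (p : ℕ) : ℕ := roughPart p (s p)

/-- The largest integer below `β * 2 ^ p`. -/
noncomputable def amp (β : ℝ) (p : ℕ) : ℕ := ⌈β * 2 ^ p⌉₊ - 1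

/-- The integer part of `x ^ p - 1`. -/
noncomputable def base (x : ℝ) (p : ℕ) : ℕ := ⌊x ^ p - 1⌋₊

open Classical in
/-- The number of primes `p ≤ n` with `p ≡ a (mod q)` for which `W s p` is prime. -/
noncomputable def M (s : ℕ → ℕ) (q a n : ℕ) : ℕ :=
  ((Finset.range (n + 1)).filter (fun p => p.Prime ∧ p ≡ a [MOD q] ∧ (W s p).Prime)).card

/-- The law with the constant `c` in all residue classes, and the bound for the least exponent in a
residue class. -/
structure Law (s : ℕ → ℕ) (c : ℝ) : Prop where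
  /-- the number of the exponents in a residue class, uniformly in the modulus -/
  uniform : ∀ ε : ℝ, 0 < ε → ∃ B : ℝ, ∀ n : ℕ, 3 ≤ n → ∀ q a : ℕ, 1 ≤ q → a.Coprime q →
    |(M s q a n : ℝ) - c * (Real.log n / Nat.totient q)| ≤
      B * ((q : ℝ) ^ (1 / 2 + ε) * Real.log n ^ (1 / 2 + ε))
  /-- the least exponent in a residue class -/
  least : ∀ ε : ℝ, 0 < ε → ∃ Q : ℕ, ∀ q a : ℕ, Q ≤ q → a.Coprime q →
    ∃ p : ℕ, p.Prime ∧ p ≡ a [MOD q] ∧ (W s p).Prime ∧ (p : ℝ) ≤ Real.exp ((q : ℝ) ^ (3 + ε))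

lemma M_eq (s : ℕ → ℕ) (q a n : ℕ) : M s q a n = Pool.Agent.TH888.R.cS (Pool.Agent.Q43.UN.Cl q a) s n := by
  classical
  unfold M Pool.Agent.TH888.R.cS
  congr 1
  ext p
  simp only [Finset.mem_filter]
  rfl

lemma law_of {s : ℕ → ℕ} {c : ℝ} (hc : 0 < c) (h : Pool.Agent.Q43.UN.UPt s c) : Law s c := by
  refine ⟨fun ε hε => ?_, fun ε hε => h.least hc hε⟩
  obtain ⟨B, _, hB⟩ := h ε hε
  simp only [M_eq]
  exact ⟨B, hB⟩

lemma W_amp_one {p : ℕ} (hp : p.Prime) : W (amp 1) p = 2 ^ p - 1 := by
  have h := Pool.Agent.W66S.repunit_special (b := 2) le_rfl hp (by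
    intro h
    exact hp.one_lt.ne' (Nat.dvd_one.1 h))
  have e1 : ⌈(1 / (((2 : ℕ) : ℝ) - 1)) * ((2 : ℕ) : ℝ) ^ p⌉₊ = ⌈(1 : ℝ) * 2 ^ p⌉₊ := by
    congr 1
    push_cast
    norm_num
  rw [e1, Nat.geomSum_eq le_rfl] at h
  have h2 : W (amp 1) p = Pool.Agent.H305R2.roughPart p (⌈(1 : ℝ) * 2 ^ p⌉₊ - 1) := rfl
  rw [h2, h]
  norm_num

lemma base_two (p : ℕ) : base 2 p = 2 ^ p - 1 := by
  unfold base
  have h1 : 1 ≤ 2 ^ p := Nat.one_le_two_pow
  have : (2 : ℝ) ^ p - 1 = ((2 ^ p - 1 : ℕ) : ℝ) := by
    rw [Nat.cast_sub h1]; push_cast; ring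
  rw [this, Nat.floor_natCast]

lemma amp_one (p : ℕ) : amp 1 p = 2 ^ p - 1 := by
  unfold amp
  have : (1 : ℝ) * 2 ^ p = ((2 ^ p : ℕ) : ℝ) := by push_cast; ring
  rw [this, Nat.ceil_natCast]

lemma W_base_two {p : ℕ} (hp : p.Prime) : W (base 2) p = 2 ^ p - 1 := by
  rw [← W_amp_one hp]
  unfold W
  rw [base_two, amp_one]

/-- At `β = 1` and at `x = 2` the values are the Mersenne numbers.  For almost every amplitude (base
two) and for almost every real base, the law holds in all residue classes with an error term that is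
uniform in the modulus. -/
theorem result :
    (∀ p : ℕ, p.Prime → W (amp 1) p = 2 ^ p - 1 ∧ W (base 2) p = 2 ^ p - 1) ∧
    (∀ᵐ β : ℝ, 0 < β → Law (amp β) (Real.exp Real.eulerMascheroniConstant / Real.log 2)) ∧
    (∀ᵐ x : ℝ, 1 < x → Law (base x) (Real.exp Real.eulerMascheroniConstant / Real.log x)) := by
  refine ⟨fun p hp => ⟨W_amp_one hp, W_base_two hp⟩, ?_, ?_⟩
  · have hg : ∀ p : ℕ, |(fun _ : ℕ => (0 : ℝ)) p| ≤ (0 : ℝ) * (1 : ℝ) ^ p := by simp
    have h := Pool.Agent.Q43.UN.upt_ceil (α := ((2 : ℕ) : ℝ)) (κ := 1) (C := 0) (g := fun _ => 0)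
      (by norm_num) (by norm_num) (by norm_num) hg
      (Pool.Agent.TH888.R.near_base (b := 2) le_rfl (by norm_num) (by norm_num) hg)
    filter_upwards [h] with β hβ h0
    refine law_of (div_pos (Real.exp_pos _) (Real.log_pos (by norm_num))) ?_
    have h1 := hβ h0
    simp only [add_zero, Nat.cast_ofNat] at h1
    exact h1
  · have h := Pool.Agent.Q43.UN.upt_curve 1 (A := fun _ => 1) contDiffOn_const (fun _ _ => one_pos)
    filter_upwards [h] with x hx h0
    refine law_of (div_pos (Real.exp_pos _) (Real.log_pos h0)) ?_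
    have h1 := hx (by simpa using h0)
    simp only [one_mul, one_pow] at h1
    exact h1

end Pool.Agent.Results.MP_9b2bac_nt.UniformProgressions
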